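import Pool.Agent.WR2.Defs

/-!
WR2, block B: the chain of blocks, the comparison with s_n. The docstrings contain the complete
proofs. Proved rows of WIR are taken as hypotheses (`HoeStmt`, `We2Stmt`, `TelStmt`, `CodStmt`).
-/

namespace Pool.Agent.WR2

open Pool.Agent.WIR
open scoped BigOperators ENNReal

/-- **Row BST** (one block; uses CMO, and `0 ≤ wr r m` from WRB). PROOF. Pointwise wr r m ≤ Tht s r' m +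
max 0 (wr r m - Tht s r' m), weights and counts are ≥ 0, so
Tht t r a ≤ AO t (fun _ => Tht s r') a + AO t (fun _ m => max ..) a, and
AO t (fun _ => Tht s r') a = sum_(l ∈ WS t) sum_(l' ∈ WS s) (3^(l+l')/2^(t+s)) PS t l (PS s l' (wr r')) a.
By CMO Tht (t+s) r' a = sum_(L ∈ WS (t+s)) sum_(l ≤ L) (3^L/2^(t+s)) PS t l (PS s (L-l) (wr r')) a, all
terms ≥ 0, and (l,l') ↦ (l+l', l) is injective from WS t × WS s into the index set (WS t + WS s ⊆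
WS (t+s): the inequalities are linear), with L - l = l'. -/
def BstStmt : Prop :=
  ∀ t s r r' a : ℕ,
    Tht t r a ≤ Tht (t + s) r' a + AO t (fun _ m => max 0 (wr r m - Tht s r' m)) a

/-- **Row BSM** (uses TRF). PROOF. Exchange the sums: sum_(l ∈ WS t) sum_a (3^l/2^t) PS t l (f l) a, each
at most 2 * 3^q av N (f l) ≤ 2 * 3^q B by TRF, and |WS t| ≤ t + 1. Condition 3^(N+l) ≤ 2^t 3^q: let
d = N + l - q (if d ≤ 0 it is clear); 2000 l ≤ 1001 t, 10 N ≤ t + q give d ≤ 0.6005 t, so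
8 d ≤ 5 t, 3^(5d) ≤ 2^(8d) ≤ 2^(5t), 3^d ≤ 2^t. -/
def BsmStmt : Prop :=
  ∀ (t q N : ℕ) (f : ℕ → ℕ → ℝ) (B : ℝ), 0 ≤ B → (∀ l m, 0 ≤ f l m) →
    (∀ l ∈ WS t, Lv N (f l) ∧ av N (f l) ≤ B) → 10 * N ≤ t + q →
    ∑ a ∈ Finset.Icc 1 (3 ^ q), AO t f a ≤ 2 * 3 ^ q * (t + 1) * B

/-- **Row CHN** (the chain; uses STP, BST). PROOF. Induction on j. j = 0: tj q 0 = 0, WS 0 = {0},
PS 0 0 f a = f a, so Tht 0 r a = wr r a. Step: BST with t = tj q j, s = (t+q)/100, t + s = tj q (j+1),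
r = (tj q j + q)/1000, r' = (tj q (j+1) + q)/1000; the second term is Eb q j a. -/
def ChnStmt : Prop :=
  ∀ q j a : ℕ, 0 < a → wr (q / 1000) a ≤ Tht (tj q j) ((tj q j + q) / 1000) a
    + ∑ i ∈ Finset.range j, Eb q i a

/-- **Row ERB** (all blocks together; uses TBK, BSM). PROOF. u = tj q i + q ≥ 1000, s = u/100,
r = u/1000, r' = (u + s)/1000 ≥ r, N = u/10 (natural divisions). l ∈ WS s: 2000 l ≤ 1001 s, so
l + r' ≤ N. TBK with A = 4 (s + 1 ≤ u, r + 1 ≥ u/1000, s ≥ u/100 - 1):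
av N ≤ C 10^12 u/u^4 + 2 exp(-(u/100-1)/2000000) ≤ C'/u^3 (t^3 exp(-ct) is bounded). BSM with
f l = the same function for all l, t = tj q i, 10 N ≤ u = t + q:
sum_a Eb q i a ≤ 2 * 3^q (t+1) C'/u^3 ≤ 2 C' 3^q/u^2. tj q (i+1) ≥ tj q i + 1, so tj q i ≥ i, u ≥ q + i
and sum_i 1/(q+i)^2 ≤ 2/q. -/
def ErbStmt : Prop :=
  ∃ C : ℝ, 0 ≤ C ∧ ∀ q J : ℕ, 1000 ≤ q →
    ∑ a ∈ Finset.Icc 1 (3 ^ q), ∑ i ∈ Finset.range J, Eb q i a ≤ C * 3 ^ q / q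

/-- **Row LG2** (no hypotheses). PROOF. 2^(log) ≤ 3^l < 2^(log+1), log = Nat.log 2 (3^l)
(`Nat.pow_log_le_self`, `Nat.lt_pow_succ_log_self`). 3^17 ≤ 2^27: 2^(17 log) ≤ 3^(17 l) ≤ 2^(27 l).
2^19 ≤ 3^12: 2^(19 l) ≤ 3^(12 l) ≤ 2^(12 (log+1)). 3^5 ≤ 2^8, 2^79 ≤ 3^50 in the same way. Last part:
products of the inequalities 2^(log a) ≤ 3^a < 2^(log a + 1). -/
def Lg2Stmt : Prop :=
  (∀ l : ℕ, 17 * Nat.log 2 (3 ^ l) ≤ 27 * l ∧ 19 * l ≤ 12 * (Nat.log 2 (3 ^ l) + 1) ∧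
    5 * Nat.log 2 (3 ^ l) ≤ 8 * l ∧ 79 * l ≤ 50 * (Nat.log 2 (3 ^ l) + 1)) ∧
  (∀ a b : ℕ, Nat.log 2 (3 ^ a) + Nat.log 2 (3 ^ b) ≤ Nat.log 2 (3 ^ (a + b)) ∧
    Nat.log 2 (3 ^ (a + b)) ≤ Nat.log 2 (3 ^ a) + Nat.log 2 (3 ^ b) + 1)

/-- **Row LIV** (every path crosses the level; uses LG2). PROOF. K = 7 (y+1), g b = Nat.log 2 (3^b)
(monotone). φ s = y + g (l1 + k s) - g l1 - s (integer). φ (3r) ≥ y - 3r ≥ 0. φ K < 0: by LG2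
g (l1 + k) - g l1 ≤ g k + 1 ≤ 8k/5 + 1 and k = k K ≤ 21K/40, so φ K ≤ y + 1 + 0.84 K - K
= -0.12 (y+1). φ (s+1) ≥ φ s - 1. Let s be the least s ≥ 3r with φ s ≤ 0; then φ s = 0 (if s = 3r as
φ (3r) ≥ 0, otherwise φ (s-1) ≥ 1), s ≤ K. l2 = k s ≥ k (3r) ≥ r, M2 l1 y l2 = s ≤ K.
8 l2 ≤ 5 s: s ≥ y + g l2 (LG2), 50 (g l2 + 1) ≥ 79 l2, so 50 s ≥ 50 y + 79 l2 - 50, and it is
enough that 50 (y - 1) ≥ l2; l2 ≤ K because k has steps ≤ 1: use l2 = k s ≤ k K ≤ 21K/40 (k is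
monotone) = 3.675 (y+1) ≤ 50 (y-1) for y ≥ 2. l2 ≤ K also gives l2 ∈ range (K+1). -/
def LivStmt : Prop :=
  ∀ (k : ℕ → ℕ) (l1 y r : ℕ), (∀ s, k s ≤ k (s + 1) ∧ k (s + 1) ≤ k s + 1) → 2 ≤ y → 3 * r ≤ y →
    r ≤ k (3 * r) → 40 * k (7 * (y + 1)) ≤ 21 * (7 * (y + 1)) →
    ∃ l2 ∈ RS l1 y r (7 * (y + 1)), k (M2 l1 y l2) = l2

/-- **Row BWD** (bad words; uses WIR.HoeStmt). PROOF. First kind (r ≥ 1): 2^(K-3r) times the number of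
O1 ⊆ Icc 1 (3r) with |O1| < r, i.e. 3r - 2|O1| > r =: u; HOE with s = 3r: ≤ 2^(3r) exp(-r²/(6r)). Second
kind: 2|O| - K > K/20 =: u, HOE with s = K: ≤ 2^K exp(-(K/20)²/(2K)) = 2^K exp(-K/800). (The number
of O ⊆ Icc 1 K with |O| = i is C(K,i).) Second part: fibres of O ↦ FO r O
(`Finset.card_eq_sum_card_fiberwise`). -/
def BwdStmt : Prop :=
  (∀ r K : ℕ, 0 < K → 3 * r ≤ K →
    ((bd K r).card : ℝ) ≤ 2 ^ K * (Real.exp (-((r : ℝ) / 6)) + Real.exp (-((K : ℝ) / 800)))) ∧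
  (∀ r K : ℕ, ∑ z : ZMod (3 ^ r), bz K r z = (bd K r).card)

/-- **Row GWD** (uses LIV, WIR.We2Stmt). PROOF. K = 7 (y+1) ≥ 3r. W r z = 3^r/2^(3r) cnt (3r) (Ici r) r z
≤ 3^r/2^K cnt K (Ici r) r z (WE2). Let O ⊆ Icc 1 K, r ≤ |O|, FO r O = z. If O is bad (O ∈ bd K r) it
is counted in bz K r z. Otherwise LIV with k s = |O ∩ Icc 1 s| (k K = |O|) gives l2 ∈ RS with
|O ∩ Icc 1 M| = l2, M = M2 l1 y l2 ≤ K, and FO r (O ∩ Icc 1 M) = FO r O = z: the elements p > M of O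
have rank ≥ l2 ≥ r, so 3^(rank) = 0 in Z/3^r, and the ranks of the elements ≤ M are the same in both
sets. For given l2 the number of O ⊆ Icc 1 K with O ∩ Icc 1 M in the set counted by cnt M {l2} r z is
2^(K-M) cnt M {l2} r z. Sum over l2 ∈ RS, divide by 2^K. -/
def GwdStmt : Prop :=
  ∀ (l1 y r : ℕ) (z : ZMod (3 ^ r)), 2 ≤ y → 3 * r ≤ y →
    W r z ≤ ∑ l2 ∈ RS l1 y r (7 * (y + 1)),
        (3 ^ r / 2 ^ M2 l1 y l2 : ℝ) * (cnt (M2 l1 y l2) {l2} r z : ℝ)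
      + 3 ^ r / 2 ^ (7 * (y + 1)) * (bz (7 * (y + 1)) r z : ℝ)

/-- **Row CMP** (comparison in the mean; uses AVA, WRB, BWD, GWD, WIR.TelStmt, WIR.CodStmt). PROOF. K = 7
(y+1). COD: uT M l m = cnt M {l} l m for m > 0, of level l ≤ K; r ≤ y ≤ K. So Lv K. For m > 0 GWD with
z = m gives max 0 (wr r m - gf l1 y r m) ≤ sum_(l2 ∈ RS) D_(l2) m + 3^r/2^K bz K r m with
D_(l2) m = (3^l2/2^M) |uT M l2 m - 3^r/3^l2 cnt M {l2} r m|, M = M2 l1 y l2. TEL (m := r, l := l2,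
r ≤ l2, 8 l2 ≤ 5 M) and AVA (2) at level l2 (pj r l2 m = m in Z/3^r): average of D_(l2) is at most
C/(r+1)^A. |RS| ≤ K + 1 ≤ 8 (y+1). The last term has average 2^(-K) |bd K r| (AVA (2), BWD) ≤ exp(-r/6)
+ exp(-K/800), K/800 ≥ y/120. -/
def CmpStmt : Prop :=
  ∀ A : ℕ, ∃ C : ℝ, 1 ≤ C ∧ ∀ l1 y r : ℕ, 2 ≤ y → 3 * r ≤ y →
    Lv (7 * (y + 1)) (fun m => max 0 (wr r m - gf l1 y r m)) ∧
    av (7 * (y + 1)) (fun m => max 0 (wr r m - gf l1 y r m))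
      ≤ C * (y + 1) / ((r : ℝ) + 1) ^ A + Real.exp (-((r : ℝ) / 6)) + Real.exp (-((y : ℝ) / 120))

/-- **Row FCM** (final comparison, deterministic; uses PRE, CMO, WRB). PROOF. Pointwise
wr r m ≤ gf l1 (y l1) r m + max 0 (..), so the bracket is at most AO t (fun l1 => gf l1 (y l1) r) a
= sum_(l1 ∈ WS t) sum_(l2 ∈ RS) (3^l1/2^t) (3^l2/2^M) sum_(m ∈ Pre t l1 a) uT M l2 m, M = M2 l1 (y l1) l2.
For these l1, l2 put l = l1 + l2: Mz n l = n + Nat.log 2 (3^l) = t + M (Nat.log 2 (3^l1) ≤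
Nat.log 2 (3^l)), so M = Mz n l - t depends only on l. By CMO with f = 1 (PS t l 1 = card = uT, PRE (3))
uT (t+M) l a = sum_(l' ≤ l) sum_(m ∈ Pre t l' a) uT M (l-l') m. The pairs (l1,l2) with the same l are
different l' = l1 in this sum. So with L = t + 1 + sum_(l1 ∈ WS t) (7 (y l1 + 1) + 1) (all l < L)
the bracket is at most sum_(l < L) (3^l/2^(Mz n l)) uT (Mz n l) l a, and
2^n 3^l/2^(Mz n l) = 3^l/2^(Nat.log 2 (3^l)) ≤ 2. -/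
def FcmStmt : Prop :=
  ∀ (n t r a : ℕ) (y : ℕ → ℕ), 0 < a → (∀ l1 ∈ WS t, n + Nat.log 2 (3 ^ l1) = t + y l1) →
    ∃ L : ℕ, 2 ^ n * (Tht t r a - AO t (fun l1 m => max 0 (wr r m - gf l1 (y l1) r m)) a)
      ≤ 2 * ∑ l ∈ Finset.range L, (uT (Mz n l) l a : ℝ)

/-- **Row COV** (every n is reached; uses LG2). PROOF. Real numbers. t = tj q j, u = t + q,
B j = 0.20508 t + u/70 - 1. For l1 ∈ WS t by LG2: g = Nat.log 2 (3^l1) ≤ (27/17) (1001/2000) t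
≤ 0.79492 t and g ≥ (19/12) (999/2000) t - 1 ≥ 0.79087 t - 1. So n ≤ B j implies
y := n + g - t ≤ u/70 - 1, and n ≥ A j := 0.20913 t + 1 + 0.003 u implies n + g - t ≥ 0.003 u ≥ 0, so y
is a natural number, 3 (u/1000) ≤ y. n ≤ B j ≤ u. tj q (j+1) ≥ tj q j + 20, so B j -> ∞; let j be
the least index with n ≤ B j. j = 0: A 0 = 1 + 0.003 q ≤ q/100 ≤ n. j ≥ 1: with t', u' for
j - 1: t ≤ t' + u'/100, u ≤ 1.01 u', so A j ≤ 0.20913 t' + 0.0020913 u' + 1 + 0.00303 u', and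
n > B (j-1) = 0.20508 t' + u'/70 - 1 ≥ A j since 0.0091 u' - 0.00405 t' - 2 ≥ 0 (t' ≤ u',
u' ≥ 2000). -/
def CovStmt : Prop :=
  ∀ q n : ℕ, 2000 ≤ q → q ≤ 100 * n →
    ∃ j : ℕ, n ≤ tj q j + q ∧ ∀ l1 ∈ WS (tj q j), ∃ y : ℕ,
      n + Nat.log 2 (3 ^ l1) = tj q j + y ∧ 3 * ((tj q j + q) / 1000) ≤ y ∧
      70 * (y + 1) ≤ tj q j + q

/-- **Row ECB** (errors for large n; uses AVA, BSM, CMP, FCM, COV). PROOF. For n with q ≤ 100 n choose j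
and the function y of l1 (COV; y l1 arbitrary for l1 ∉ WS t), t = tj q j, u = t + q, r = u/1000 ≥ 2,
e n a = AO t (fun l1 m => max 0 (wr r m - gf l1 (y l1) r m)) a ≥ 0 (for other n put e n a = 0).
Third part: FCM. Second part: for l1 ∈ WS t: y ≥ 3r ≥ 6, 10 (7 (y+1)) ≤ u. CMP with A = 4 and AVA (1):
with N = u/10 ≥ 7 (y+1) Lv N and av N ≤ C u/(u/1000)^4 + exp(-r/6) + exp(-y/120) ≤ C'/u^3 (r + 1 ≥ u/1000,
y ≥ 3r). BSM (10 N ≤ u = t + q): sum_a e n a ≤ 2 * 3^q (t+1) C'/u^3 ≤ 2 C' 3^q/u^2 ≤ 2 C' 3^q/n^2, as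
t + 1 ≤ u and n ≤ u. -/
def EcbStmt : Prop :=
  ∃ C : ℝ, 0 ≤ C ∧ ∀ q : ℕ, 2000 ≤ q → ∃ e : ℕ → ℕ → ℝ, (∀ n a, 0 ≤ e n a) ∧
    (∀ n, q ≤ 100 * n → ∑ a ∈ Finset.Icc 1 (3 ^ q), e n a ≤ C * 3 ^ q / (n : ℝ) ^ 2) ∧
    (∀ n a, q ≤ 100 * n → 0 < a → ∃ j L : ℕ,
      2 ^ n * (Tht (tj q j) ((tj q j + q) / 1000) a - e n a)
        ≤ 2 * ∑ l ∈ Finset.range L, (uT (Mz n l) l a : ℝ))

/-- **Row SMN** (small n; uses STP, AVA, CMP, FCM). PROOF. e n a = max 0 (wr (n/3) a - gf 0 n (n/3) a).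
FCM with t = 0, y = fun _ => n (WS 0 = {0}, Nat.log 2 (3^0) = 0), and for a > 0 AO 0 f a = f 0 a,
Tht 0 r a = wr r a (STP (1)). Second part: K = 7 (n+1) ≤ q, CMP with A = 3, l1 = 0, y = n, r = n/3
(3 (n/3) ≤ n), and AVA (1): the sum over Icc 1 (3^q) is 3^q av q = 3^q av K
≤ 3^q (C (n+1)/(n/3+1)^3 + exp(-(n/3)/6) + exp(-n/120)) ≤ C' 3^q/n^2 (n/3 + 1 ≥ n/3 as real numbers,
n/3 ≥ (n-2)/3). -/
def SmnStmt : Prop :=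
  ∃ C : ℝ, 0 ≤ C ∧ ∃ e : ℕ → ℕ → ℝ, (∀ n a, 0 ≤ e n a) ∧
    (∀ n q, 6 ≤ n → 7 * (n + 1) ≤ q →
      ∑ a ∈ Finset.Icc 1 (3 ^ q), e n a ≤ C * 3 ^ q / (n : ℝ) ^ 2) ∧
    (∀ n a, 6 ≤ n → 0 < a → ∃ L : ℕ,
      2 ^ n * (wr (n / 3) a - e n a) ≤ 2 * ∑ l ∈ Finset.range L, (uT (Mz n l) l a : ℝ))

end Pool.Agent.WR2
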