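import Pool.Agent.WR2.StmtsA
import Pool.Agent.WR2.StmtsB

/-!
WR2, block C: the mean value, Markov, final theorem. The docstrings contain the complete proofs.
-/

namespace Pool.Agent.WR2

open Pool.Agent.WIR
open scoped BigOperators ENNReal

/-- **Row USB** (bounded mean values; uses WIR.FloStmt, WIR.TybStmt only for summability). PROOF.
n fixed. For (t,l) let x = 2^n 3^l/2^t and V(t,l) = min 1 (sqrt (x/2)), 0 ≤ V ≤ 1. Let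
κ = (sqrt (1/2) + sqrt (3/2))/2; κ < 0.966 (squares: (1/2 + 3/2 + 2 sqrt (3/4))/4 = (2 + sqrt 3)/4).
If x ≤ 2 then V = sqrt (x/2), V(t+1,l) ≤ sqrt (x/4), V(t+1,l+1) ≤ sqrt (3x/4), so the mean
(V(t+1,l) + V(t+1,l+1))/2 ≤ κ V(t,l); if x > 2 it is ≤ 1 = V(t,l). So v_t := sum_(l ≤ t)
C(t,l) 2^(-t) V(t,l) ∈ [0,1] satisfies (Pascal) v_t - v_(t+1) ≥ sum over the l ≤ t with Mz n l = t of
C(t,l) 2^(-t) (1-κ) sqrt (1/2): for such l 2^t ≤ 2^n 3^l < 2^(t+1) (FLO), 1 ≤ x < 2, V ≥ sqrt (1/2), and all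
the other terms are ≥ 0. (1-κ) sqrt (1/2) ≥ 0.034 * 0.707 ≥ 1/42. Sum over t < R':
sum_(l : Mz n l < R') C(Mz n l,l)/2^(Mz n l) ≤ 42 (v_0 - v_R') ≤ 42 (Mz n is strictly increasing, every l is
counted for one t). en n l ≤ 2^n C(Mz n l,l)/2^(Mz n l) (FLO). So all partial sums of en n are
≤ 42 * 2^n. -/
def UsbStmt : Prop :=
  ∀ n : ℕ, 1 ≤ n → ∑' l, en n l ≤ 42 * 2 ^ n

/-- **Row SBU** (uses USB, WIR.UtsStmt, WIR.IntStmt, WIR.TybStmt). PROOF. sbar n = (∫ over U3)/μ3 U3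
≤ (∫ sP n)/(2/3) (UTS), ∫ sP n = sum' ofReal (en n l) = ofReal (sum' en n l) (INT, summable by TYB,
en ≥ 0, `ENNReal.ofReal_tsum_of_nonneg`) ≤ ofReal (42 * 2^n) (USB), (3/2) * 42 = 63. -/
def SbuStmt : Prop :=
  ∀ n : ℕ, 1 ≤ n → sbar n ≤ ENNReal.ofReal (63 * 2 ^ n)

open Classical in
/-- **Row MKV** (Markov for an increasing sequence; no hypotheses). PROOF. For every a in the filtered
set choose J a; let J be the maximum of these finitely many numbers. Then c ≤ F (J a) a ≤ F J a for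
all these a, so c * card ≤ sum over the filtered set of F J a ≤ sum over S ≤ B. -/
def MkvStmt : Prop :=
  ∀ (S : Finset ℕ) (F : ℕ → ℕ → ℝ) (c B : ℝ), 0 < c → (∀ J a, 0 ≤ F J a) →
    (∀ a J J', J ≤ J' → F J a ≤ F J' a) → (∀ J, ∑ a ∈ S, F J a ≤ B) →
    c * ((S.filter (fun a => ∃ J, c ≤ F J a)).card : ℝ) ≤ B

open Classical in
/-- **Row BAD** (few integers with small density; uses AVA, WIR.PsfStmt). PROOF. c, N0' from PSF,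
N0 = N0' + 1; r = N + 1, N ≥ N0'. f a = 1 if ¬ 3 ∣ a ∧ wr r a < c, otherwise 0; f a = F a with F z = 1 if
IsUnit z ∧ W r z < c, otherwise 0 ((a : ZMod (3^r)) is a unit iff a is coprime to 3, r ≥ 1,
`ZMod.isUnit_iff_coprime`). AVA (1), (2): the cardinality is 3^q av q f = 3^q av r f
= 3^q (number of z)/3^r ≤ ε 3^q. -/
def BadStmt : Prop :=
  ∀ ε : ℝ, 0 < ε → ∃ c : ℝ, 0 < c ∧ ∃ N0 : ℕ, ∀ r q : ℕ, N0 ≤ r → r ≤ q →
    (((Finset.Icc 1 (3 ^ q)).filter (fun a => ¬ 3 ∣ a ∧ wr r a < c)).card : ℝ) ≤ ε * 3 ^ q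

open Classical in
/-- **Row COR** (the core; uses AVA, WRB, VRB, SMN, CHN, ERB, ECB, MKV, BAD). PROOF. c0, N0 from BAD (ε/2);
C1 from VRB (A = 1), C2, e2 from SMN, C3 from ERB, C4 from ECB. Choose n1 ≥ 6 with rs := n1/3 ≥ N0 and
C1/(rs+1) + 2 C2/(n1-1) ≤ c0 ε/8, and q0 ≥ 2000, q0 ≥ 1000 (rs+1), q0 ≥ 100 n1 with
(C3 + 400 C4)/q0 ≤ c0 ε/8. Let q ≥ q0, e4 from ECB, and
F J a = VR rs q a + sum_(n ∈ Ico n1 (q/7)) e2 n a + sum_(i < J) Eb q i a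
 + sum_(n ∈ range J, q ≤ 100 n) e4 n a.
All terms are ≥ 0, F is monotone in J. Sum over a ∈ Icc 1 (3^q): 3^q av q (VR rs q) ≤ 3^q C1/(rs+1),
sum_(n ≥ n1) C2 3^q/n^2 ≤ 3^q 2 C2/(n1-1) (for n < q/7: 7 (n+1) ≤ q), C3 3^q/q, and
sum_(n ≥ q/100) C4 3^q/n^2 ≤ 400 C4 3^q/q; total B ≤ (c0/2) (ε/2) 3^q. MKV with c0/2:
at most (ε/2) 3^q integers a ≤ 3^q have some J with c0/2 ≤ F J a. Together with BAD at most ε 3^q are
exceptional; let a be not exceptional, ¬ 3 ∣ a: wr rs a ≥ c0, F J a < c0/2 for all J, and n ≥ n1. Case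
7 (n+1) ≤ q: SMN: for some L 2 sum_(l<L) uT ≥ 2^n (wr (n/3) a - e2 n a)
≥ 2^n (wr rs a - VR rs q a - e2 n a) ≥ 2^n c0/2 (VRB (1), rs ≤ n/3 ≤ q). Otherwise q < 7 (n+1) ≤ 100 n:
ECB gives j, L with 2 sum ≥ 2^n (Tht (tj q j) .. a - e4 n a), CHN: Tht ≥ wr (q/1000) a - sum_(i<j) Eb,
wr (q/1000) a ≥ wr rs a - VR rs q a (rs ≤ q/1000); with J = max j (n+1) the sum is ≥ 2^n c0/2. So
c = c0/4, n0 = n1: sum_(l<L) uT ≥ (c0/4) 2^n for some L. -/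
def CorStmt : Prop :=
  ∀ ε : ℝ, 0 < ε → ∃ c : ℝ, 0 < c ∧ ∃ n0 q0 : ℕ, ∀ q : ℕ, q0 ≤ q →
    (((Finset.Icc 1 (3 ^ q)).filter (fun a => ¬ 3 ∣ a ∧ ∃ n, n0 ≤ n ∧ ∀ L : ℕ,
      ∑ l ∈ Finset.range L, (uT (Mz n l) l a : ℝ) < c * 2 ^ n)).card : ℝ) ≤ ε * 3 ^ q

open Classical in
/-- **Row PDC** (predecessors; uses PRE, WIR.FloStmt). PROOF. The sets Pre (Mz n l) l a, l < L, are
pairwise disjoint: Mz n is strictly increasing (Nat.log 2 (3^(l+1)) ≥ Nat.log 2 (3^l) + 1), and if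
T^M b = a = T^M' b with M < M' then T^(M'-M) a = a, excluded. They are contained in the set on the
right: 3^l b ≤ 2^(Mz n l) a ≤ 2^n 3^l a (PRE (2), FLO (2)), so b ≤ 2^n a. uT = card (PRE (3));
`Finset.card_biUnion`. -/
def PdcStmt : Prop :=
  ∀ n L a : ℕ, 0 < a → (∀ p, 0 < p → T^[p] a ≠ a) →
    ∑ l ∈ Finset.range L, uT (Mz n l) l a
      ≤ ((Finset.Icc 1 (2 ^ n * a)).filter (fun b => ∃ j, T^[j] b = a)).card

open Classical in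
/-- **Row FNL** (final theorem; uses COR, SBU, PDC, WIR.SbrStmt not needed). PROOF. COR with ε/3: c0, n0, q0.
c = min (c0/64) (1/2^n0), X0 = 3^q0. For X ≥ X0 let q = Nat.log 3 X, 3^q ≤ X < 3^(q+1), q + 1 ≥ q0. An
exceptional a ≤ X is exceptional in COR for q + 1: otherwise for all n ≥ n0 there is L with
sum_(l<L) uT ≥ c0 2^n, so sN n a ≥ ofReal (c0 2^n) (partial sum of the ENNReal series)
> ofReal c * ofReal (63 * 2^n) ≥ ofReal c * sbar n for n > n0 (SBU, n ≥ 1), and (PDC) the number of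
predecessors in Icc 1 (2^n a) is ≥ c0 2^n ≥ c 2^n for n ≥ n0; for n < n0 it is ≥ 1 ≥ c 2^n as
a itself is counted (j = 0). The number of exceptional a is ≤ (ε/3) 3^(q+1) = ε 3^q ≤ ε X. -/
def FnlStmt : Prop :=
  ∀ ε : ℝ, 0 < ε → ∃ c : ℝ, 0 < c ∧ ∃ n0 X0 : ℕ, ∀ X : ℕ, X0 ≤ X →
    (((Finset.Icc 1 X).filter (fun a => ¬ 3 ∣ a ∧ ¬ (
      (∀ n, n0 < n → ENNReal.ofReal c * sbar n < sN n a) ∧
      ((∀ p, 0 < p → T^[p] a ≠ a) → ∀ n, c * 2 ^ n ≤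
        (((Finset.Icc 1 (2 ^ n * a)).filter (fun b => ∃ j, T^[j] b = a)).card : ℝ))))).card : ℝ)
      ≤ ε * X

end Pool.Agent.WR2
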