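import Pool.Agent.WIR.Done
import Pool.Agent.WR2.StmtsC
import Pool.Agent.Helper27_WR2.PRE
import Pool.Agent.Helper77_WR2.CMO
import Pool.Agent.Helper5_WR2.STP
import Pool.Agent.Helper10_WR2.AVA
import Pool.Agent.Helper86_WR2.AVC
import Pool.Agent.Helper31_WR2.TRF
import Pool.Agent.Helper4_WR2.LVM
import Pool.Agent.Helper33_WR2.LOP
import Pool.Agent.Helper33_WR2.CNR
import Pool.Agent.Helper7_WR2.WRB
import Pool.Agent.Helper81_WR2.VRB
import Pool.Agent.Helper47_WR2.ONE
import Pool.Agent.Helper19_WR2.ITR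
import Pool.Agent.Helper38_WR2.TBK
import Pool.Agent.Helper34_WR2.BST
import Pool.Agent.Helper67_WR2.BSM
import Pool.Agent.Helper64_WR2.CHN
import Pool.Agent.Helper26_WR2.ERB
import Pool.Agent.Helper44_WR2.LG2
import Pool.Agent.Helper85_WR2.LIV
import Pool.Agent.Helper91_WR2.BWD
import Pool.Agent.Helper51_WR2.GWD
import Pool.Agent.Helper69_WR2.CMP
import Pool.Agent.Helper88_WR2.FCM
import Pool.Agent.Helper80_WR2.COV
import Pool.Agent.Helper62_WR2.ECB
import Pool.Agent.Helper25_WR2.SMN
import Pool.Agent.Helper92_WR2.USB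
import Pool.Agent.Helper42_WR2.SBU
import Pool.Agent.Helper44_WR2.MKV
import Pool.Agent.Helper95_WR2.BAD
import Pool.Agent.Helper81_WR2.COR
import Pool.Agent.Helper98_WR2.PDC
import Pool.Agent.Helper16_WR2.FNL

/-! WR2: assembly of all rows. -/

namespace Pool.Agent.WR2

open Pool.Agent.WIR

theorem done_pre : PreStmt := Pool.Agent.WR2.H27.pre

theorem done_cmo : CmoStmt := Pool.Agent.WR2.H77.cmo done_pre

theorem done_stp : StpStmt := Pool.Agent.WR2.H5.stp done_pre

theorem done_ava : AvaStmt := Pool.Agent.WR2.H10.ava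

theorem done_avc : AvcStmt := Pool.Agent.WR2.H86.avc done_ava

theorem done_trf : TrfStmt := Pool.Agent.WR2.H31.trf done_pre done_ava

theorem done_lvm : LvmStmt := Pool.Agent.WR2.H4.lvm done_stp done_ava done_avc

theorem done_lop : LopStmt := Pool.Agent.WR2.H33.lop done_pre done_stp done_ava done_avc

theorem done_cnr : CnrStmt := Pool.Agent.WR2.H33.cnr

theorem done_wrb : WrbStmt := Pool.Agent.WR2.H7.wrb done_ava Pool.Agent.WIR.done_wms Pool.Agent.WIR.done_wcf

theorem done_vrb : VrbStmt := Pool.Agent.WR2.H81.vrb done_ava done_wrb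

theorem done_one : OneStmt := Pool.Agent.WR2.H47.one done_ava done_avc done_lop done_cnr done_wrb Pool.Agent.WIR.done_wex

theorem done_itr : ItrStmt := Pool.Agent.WR2.H19.itr done_ava done_lop done_wrb done_one

theorem done_tbk : TbkStmt := Pool.Agent.WR2.H38.tbk done_ava done_lvm done_lop done_wrb done_vrb done_itr Pool.Agent.WIR.done_hoe

theorem done_bst : BstStmt := Pool.Agent.WR2.H34.bst done_cmo done_wrb

theorem done_bsm : BsmStmt := Pool.Agent.WR2.H67.bsm done_trf

theorem done_chn : ChnStmt := Pool.Agent.WR2.H64.chn done_stp done_bst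

theorem done_erb : ErbStmt := Pool.Agent.WR2.H26.erb done_tbk done_bsm

theorem done_lg2 : Lg2Stmt := Pool.Agent.WR2.H44.lg2

theorem done_liv : LivStmt := Pool.Agent.WR2.H85.liv done_lg2

theorem done_bwd : BwdStmt := Pool.Agent.WR2.H91.bwd Pool.Agent.WIR.done_hoe

theorem done_gwd : GwdStmt := Pool.Agent.WR2.H51.gwd done_liv Pool.Agent.WIR.done_we2

theorem done_cmp : CmpStmt := Pool.Agent.WR2.H69.cmp done_ava done_wrb done_bwd done_gwd Pool.Agent.WIR.done_tel Pool.Agent.WIR.done_cod

theorem done_fcm : FcmStmt := Pool.Agent.WR2.H88.fcm done_pre done_cmo done_wrb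

theorem done_cov : CovStmt := Pool.Agent.WR2.H80.cov done_lg2

theorem done_ecb : EcbStmt := Pool.Agent.WR2.H62.ecb done_ava done_bsm done_cmp done_fcm done_cov

theorem done_smn : SmnStmt := Pool.Agent.WR2.H25.smn done_stp done_ava done_cmp done_fcm

theorem done_usb : UsbStmt := Pool.Agent.WR2.H92.usb Pool.Agent.WIR.done_flo Pool.Agent.WIR.done_tyb

theorem done_sbu : SbuStmt := Pool.Agent.WR2.H42.sbu done_usb Pool.Agent.WIR.done_uts Pool.Agent.WIR.done_int Pool.Agent.WIR.done_tyb

theorem done_mkv : MkvStmt := Pool.Agent.WR2.H44.mkv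

theorem done_bad : BadStmt := Pool.Agent.WR2.H95.bad done_ava Pool.Agent.WIR.done_psf

theorem done_cor : CorStmt := Pool.Agent.WR2.H81.cor done_ava done_wrb done_vrb done_smn done_chn done_erb done_ecb done_mkv done_bad

theorem done_pdc : PdcStmt := Pool.Agent.WR2.H98.pdc done_pre Pool.Agent.WIR.done_flo

theorem done_fnl : FnlStmt := Pool.Agent.WR2.H16.fnl done_cor done_sbu done_pdc

end Pool.Agent.WR2
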