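import Pool.Agent.WIR.StmtsE

/-!
WR2: the inequality of Wirsching (Q1 of MP_0f3fac_nt) for almost all positive integers.
Definitions of the squad. The 3x+1 map `T`, the counts `uT`, `cnt`, the densities `W`, `Mz`, `en`,
`sbar` are those of WIR (Pool/Agent/WIR/Defs.lean and DefsE.lean).

PAPER PROOF (complete; details in the docstrings of the rows). For positive integers a let
`PS t l f a` be the sum of f(b) over all b with T^t(b) = a and exactly l odd numbers among
b, ..., T^(t-1)(b). (i) TRANSFER (TRF): for fixed t and l the sets of these b are disjoint for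
different a, and b <= 2^t a/3^l; so if f has period 3^N and 3^(N+l) <= 2^t X then
sum_(a<=X) (3^l/2^t) PS t l f a <= 2 X av(f). (ii) HARMONICITY (ONE, ITR): the densities W_r of WIR are
almost invariant under the transfer operator Lop, av |Lop W_r - W_r| <= C/(r+1)^A for every A
(consequence of the Fourier decay proved in WIR). (iii) CHAIN: with u = t + q, X = 3^q,
t' = t + u/100, r = u/1000 the typical part Tht t r a = sum over typical l of
(3^l/2^t) PS t l W_r a satisfies Tht t' r' a >= Tht t r a - E(a) with E(a) >= 0 and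
sum_(a<=X) E(a) <= C X/u^2: all blocks t_0 = 0 < t_1 < ... together cost at most C X/q, so for most
a <= X ALL the numbers Tht (t_j) r_j a are at least W_(q/1000)(a) - small. (iv) COMPARISON: for every
n there is a block j with 2^(-n) s_n(a) >= (1/2) Tht (t_j) r_j a - e_n(a), sum_(a<=X) e_n(a) <= C X/n^2
(every path crosses the level n; TEL of WIR). (v) W_r(a) >= c for most units (PSF of WIR).
-/

namespace Pool.Agent.WR2

open Pool.Agent.WIR
open scoped BigOperators ENNReal

/-- number of odd numbers among `b, T b, ..., T^(t-1) b`. -/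
def od (t b : ℕ) : ℕ := ((Finset.range t).filter (fun i => T^[i] b % 2 = 1)).card

/-- the `b > 0` with `T^t b = a` and exactly `l` odd numbers among `b, ..., T^(t-1) b`. -/
def Pre (t l a : ℕ) : Finset ℕ :=
  (Finset.Icc 1 (2 ^ t * a)).filter (fun b => T^[t] b = a ∧ od t b = l)

/-- sum of `f` over `Pre t l a`. -/
noncomputable def PS (t l : ℕ) (f : ℕ → ℝ) (a : ℕ) : ℝ := ∑ b ∈ Pre t l a, f b

/-- `f` has period `3^N` on the positive integers. -/
def Lv (N : ℕ) (f : ℕ → ℝ) : Prop := ∀ m, 0 < m → f (m + 3 ^ N) = f m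

/-- average over `1, ..., 3^N`. -/
noncomputable def av (N : ℕ) (f : ℕ → ℝ) : ℝ := (∑ m ∈ Finset.Icc 1 (3 ^ N), f m) / 3 ^ N

/-- the density `W r` as a function on the integers. -/
noncomputable def wr (r m : ℕ) : ℝ := W r ((m : ℕ) : ZMod (3 ^ r))

/-- the transfer operator (for `m > 0`). -/
noncomputable def Lop (f : ℕ → ℝ) (m : ℕ) : ℝ :=
  (f (2 * m) + (if 3 ∣ 2 * m - 1 then 3 * f ((2 * m - 1) / 3) else 0)) / 2

/-- typical numbers of odd steps among `t` steps. -/
def WS (t : ℕ) : Finset ℕ :=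
  (Finset.range (t + 1)).filter (fun l => 999 * t ≤ 2000 * l ∧ 2000 * l ≤ 1001 * t)

/-- typical average with a function depending on the number of odd steps. -/
noncomputable def AO (t : ℕ) (f : ℕ → ℕ → ℝ) (a : ℕ) : ℝ :=
  ∑ l ∈ WS t, (3 ^ l / 2 ^ t : ℝ) * PS t l (f l) a

/-- the chain functional. -/
noncomputable def Tht (t r a : ℕ) : ℝ := AO t (fun _ => wr r) a

/-- total variation of the densities from `r` to `R`. -/
noncomputable def VR (r R m : ℕ) : ℝ := ∑ N ∈ Finset.Ico r R, |wr (N + 1) m - wr N m|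

/-- the block times: `0`, and `t ↦ t + (t+q)/100`. -/
def tj (q : ℕ) : ℕ → ℕ
  | 0 => 0
  | j + 1 => tj q j + (tj q j + q) / 100

/-- the error of the block `i`. -/
noncomputable def Eb (q i a : ℕ) : ℝ :=
  AO (tj q i) (fun _ m => max 0 (wr ((tj q i + q) / 1000) m
    - Tht ((tj q i + q) / 100) ((tj q (i + 1) + q) / 1000) m)) a

/-- number of steps with `l2` odd ones from the level of `m` up to level `n` (`y` the difference of
the levels, `l1` the number of odd steps below `m`). -/
def M2 (l1 y l2 : ℕ) : ℕ := y + (Nat.log 2 (3 ^ (l1 + l2)) - Nat.log 2 (3 ^ l1))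

/-- the range of `l2`. -/
def RS (l1 y r K : ℕ) : Finset ℕ :=
  (Finset.range (K + 1)).filter (fun l2 => r ≤ l2 ∧ M2 l1 y l2 ≤ K ∧ 8 * l2 ≤ 5 * M2 l1 y l2)

/-- weighted number of the points of level `n` above `m`. -/
noncomputable def gf (l1 y r m : ℕ) : ℝ :=
  ∑ l2 ∈ RS l1 y r (7 * (y + 1)), (3 ^ l2 / 2 ^ M2 l1 y l2 : ℝ) * (uT (M2 l1 y l2) l2 m : ℝ)

/-- bad words: few heads at the beginning or too many heads. -/
def bd (K r : ℕ) : Finset (Finset ℕ) :=
  (Finset.Icc 1 K).powerset.filter
    (fun O => (O ∩ Finset.Icc 1 (3 * r)).card < r ∨ 21 * K < 40 * O.card)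

open Classical in
/-- number of the bad words with `F_r(O) = z`. -/
noncomputable def bz (K r : ℕ) (z : ZMod (3 ^ r)) : ℕ := ((bd K r).filter (fun O => FO r O = z)).card

/-- `s_n(a)` for a positive integer `a`. -/
noncomputable def sN (n a : ℕ) : ℝ≥0∞ := ∑' l : ℕ, (uT (Mz n l) l a : ℝ≥0∞)

end Pool.Agent.WR2
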