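import Pool.Agent.WR2.Defs

/-!
WR2, block A: preimages under the 3x+1 map, averages, the transfer operator, the densities.
The docstrings contain the complete proofs. Proved rows of WIR are taken as hypotheses
(`WmsStmt`, `WcfStmt`, `WexStmt`, `HoeStmt` live in the namespace Pool.Agent.WIR, files
Pool/Agent/WIR/StmtsB.lean and StmtsE.lean).
-/

namespace Pool.Agent.WR2

open Pool.Agent.WIR
open scoped BigOperators ENNReal

/-- **Row PRE**. PROOF. (0) 3^(b % 2) b ≤ 2 T b (b odd: 2 T b = 3b+1; b even: 2 T b = b). Induction on t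
(`Function.iterate_succ_apply'`, od (t+1) b = od t b + (1 if T^t b is odd), `Finset.range_succ`,
`Finset.filter_insert`): 3^(od t b) b ≤ 2^t T^t b. This gives (2) and b ≤ 2^t a, so (1).
T b > 0 if b > 0, so a = 0 gives nothing on both sides. (3) the set in `uT` is the coercion of the
finset (`Set.ncard_coe_finset`), by (1). (4) od t b ≤ t (`Finset.card_filter_le`). -/
def PreStmt : Prop :=
  (∀ t l a b : ℕ, b ∈ Pre t l a ↔ (0 < b ∧ T^[t] b = a ∧ od t b = l)) ∧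
  (∀ t l a b : ℕ, b ∈ Pre t l a → 3 ^ l * b ≤ 2 ^ t * a) ∧
  (∀ t l a : ℕ, uT t l a = (Pre t l a).card) ∧
  (∀ t l a : ℕ, t < l → Pre t l a = ∅)

/-- **Row CMO** (composition; uses PRE). PROOF. T^[t+s] b = T^[t] (T^[s] b)
(`Function.iterate_add_apply`) and od (t+s) b = od s b + od t (T^[s] b) (split range (t+s) at s,
T^[s+i] b = T^[i] (T^[s] b)); T^[s] b > 0. So b ∈ Pre (t+s) L a iff, with m = T^[s] b and
l = od t m ≤ L, m ∈ Pre t l a and b ∈ Pre s (L-l) m: Pre (t+s) L a is the disjoint union over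
l ∈ range (L+1) and m ∈ Pre t l a of Pre s (L-l) m (`Finset.sum_sigma'`, `Finset.sum_bij'`, or
`Finset.sum_fiberwise_of_maps_to` twice). -/
def CmoStmt : Prop :=
  ∀ (t s L : ℕ) (f : ℕ → ℝ) (a : ℕ),
    PS (t + s) L f a = ∑ l ∈ Finset.range (L + 1), PS t l (fun m => PS s (L - l) f m) a

/-- **Row STP** (step at a; uses PRE). PROOF. c = T^[s] b > 0. T c = a iff c = 2a (c even), or
3c + 1 = 2a (c odd; then 3 ∣ 2a - 1, c = (2a-1)/3, and c is automatically odd).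
od (s+1) b = od s b + (1 if c is odd). So Pre (s+1) l a is the disjoint union of Pre s l (2a) and, if
3 ∣ 2a - 1 and l ≥ 1, Pre s (l-1) ((2a-1)/3). (Compare Pool/Agent/Helper6_WIR/CDT.lean.) s = 0:
Pre 0 l a = {a} if l = 0, otherwise empty. -/
def StpStmt : Prop :=
  ∀ (f : ℕ → ℝ) (a : ℕ), 0 < a →
    (∀ l, PS 0 l f a = if l = 0 then f a else 0) ∧
    (∀ s, PS (s + 1) 0 f a = PS s 0 f (2 * a)) ∧
    (∀ s l, PS (s + 1) (l + 1) f a = PS s (l + 1) f (2 * a)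
      + (if 3 ∣ 2 * a - 1 then PS s l f ((2 * a - 1) / 3) else 0))

/-- **Row AVA** (averages). PROOF. Lv N f gives f (m + k 3^N) = f m for m > 0 and all k, and
sum over Icc 1 (k 3^N) of f = k * (sum over Icc 1 (3^N)) (induction on k). (1): 3^N' = 3^(N'-N) 3^N.
(2) m ↦ (m : ZMod (3^N)) is a bijection from Icc 1 (3^N) to ZMod (3^N). (3) F z = f (z.val + 3^N).
(4) k = Y/3^N + 1 (natural division): Icc 1 Y ⊆ Icc 1 (k 3^N), k 3^N ≤ Y + 3^N ≤ 2Y. -/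
def AvaStmt : Prop :=
  (∀ (N N' : ℕ) (f : ℕ → ℝ), Lv N f → N ≤ N' → Lv N' f ∧ av N' f = av N f) ∧
  (∀ (N : ℕ) (F : ZMod (3 ^ N) → ℝ), Lv N (fun m => F (m : ZMod (3 ^ N))) ∧
    av N (fun m => F (m : ZMod (3 ^ N))) = (∑ z, F z) / 3 ^ N) ∧
  (∀ (N : ℕ) (f : ℕ → ℝ), Lv N f →
    ∃ F : ZMod (3 ^ N) → ℝ, ∀ m, 0 < m → f m = F (m : ZMod (3 ^ N))) ∧
  (∀ (N Y : ℕ) (f : ℕ → ℝ), Lv N f → (∀ m, 0 ≤ f m) → 3 ^ N ≤ Y →
    ∑ m ∈ Finset.Icc 1 Y, f m ≤ 2 * Y * av N f)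

/-- **Row AVC** (uses AVA). PROOF. F from AVA (3). (1) f (2m) = F (2m) for m > 0 and z ↦ 2z is a
bijection of ZMod (3^N) (2 is a unit, 3^N is odd). (2) For m > 0: 3 ∣ 2m - 1 iff m % 3 = 2, and
m = 3k+2 gives (2m-1)/3 = 2k+1; the m ∈ Icc 1 (3^(N+1)) with m % 3 = 2 are 3k+2, k < 3^N; the sum of
F (2k+1) over k ∈ range (3^N) is the sum of F (2z+1) over ZMod (3^N), which is the sum of F.
Periodicity: (2 (m + 3^(N+1)) - 1)/3 = (2m-1)/3 + 2 * 3^N if 3 ∣ 2m - 1. -/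
def AvcStmt : Prop :=
  (∀ (N : ℕ) (f : ℕ → ℝ), Lv N f →
    Lv N (fun m => f (2 * m)) ∧ av N (fun m => f (2 * m)) = av N f) ∧
  (∀ (N : ℕ) (f : ℕ → ℝ), Lv N f →
    Lv (N + 1) (fun m => if 3 ∣ 2 * m - 1 then f ((2 * m - 1) / 3) else 0) ∧
    av (N + 1) (fun m => if 3 ∣ 2 * m - 1 then f ((2 * m - 1) / 3) else 0) = av N f / 3)

/-- **Row TRF** (transfer; uses PRE, AVA). PROOF. Y = 2^t X / 3^l (natural division) ≥ 3^N. For a ≤ X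
the sets Pre t l a are pairwise disjoint (b determines a = T^t b) and contained in Icc 1 Y
(PRE (2)). f ≥ 0, so sum_(a ≤ X) PS t l f a ≤ sum_(m ∈ Icc 1 Y) f m ≤ 2 Y av N f (AVA (4)), and
3^l Y ≤ 2^t X. (av N f ≥ 0.) -/
def TrfStmt : Prop :=
  ∀ (N X t l : ℕ) (f : ℕ → ℝ), (∀ m, 0 ≤ f m) → Lv N f → 3 ^ (N + l) ≤ 2 ^ t * X →
    ∑ a ∈ Finset.Icc 1 X, (3 ^ l / 2 ^ t : ℝ) * PS t l f a ≤ 2 * X * av N f

/-- **Row LVM** (level and mean of PS; uses STP, AVA, AVC). PROOF. Induction on s, for all l (N, f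
fixed). `Lv` and `av` only see positive integers. s = 0: STP (1); l = 0: PS = f; l ≥ 1: zero, and
C(0,l) = 0. s + 1, l = 0: g = PS s 0 f (2 m), AVC (1). s + 1, l + 1: the first summand has level
N + l + 1 and average C(s,l+1)/3^(l+1) av (AVC (1)), the second one, by AVC (2) for PS s l f of level
N + l, level N + l + 1 and average C(s,l)/3^l av/3; Pascal. -/
def LvmStmt : Prop :=
  ∀ (s l N : ℕ) (f : ℕ → ℝ), Lv N f →
    Lv (N + l) (PS s l f) ∧ av (N + l) (PS s l f) = (s.choose l : ℝ) / 3 ^ l * av N f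

/-- **Row LOP** (uses PRE, STP, AVA, AVC). PROOF. (1) AVC and AVA (1): average
(av N f + 3 (av N f/3))/2. (2) Induction on s for all m; Lop^[s+1] f = Lop (Lop^[s] f)
(`Function.iterate_succ_apply'`), 2m > 0 and (2m-1)/3 > 0 if 3 ∣ 2m - 1. By STP
sum_(l ≤ s+1) (3^l/2^(s+1)) PS (s+1) l f m = sum_(l ≤ s+1) (3^l/2^(s+1)) PS s l f (2m)
+ sum_(l ≤ s) (3^(l+1)/2^(s+1)) [3 ∣ 2m-1] PS s l f ((2m-1)/3), and PS s (s+1) = 0 (PRE (4)). -/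
def LopStmt : Prop :=
  (∀ (N : ℕ) (f : ℕ → ℝ), Lv N f → Lv (N + 1) (Lop f) ∧ av (N + 1) (Lop f) = av N f) ∧
  (∀ (s : ℕ) (f : ℕ → ℝ) (m : ℕ), 0 < m →
    (Lop^[s] f) m = ∑ l ∈ Finset.range (s + 1), (3 ^ l / 2 ^ s : ℝ) * PS s l f m)

/-- **Row CNR** (recursion for the words, general set S). PROOF. As in WIR row CDR (file
Pool/Agent/Helper2_WIR/CDR.lean, which can be adapted). O ⊆ Icc 1 (M+1). If 1 ∉ O: O = O' + 1
(shift), O' ⊆ Icc 1 M, |O| = |O'|, FO O = 2⁻¹ FO O', so FO O = a iff FO O' = 2a. If 1 ∈ O: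
O = {1} ∪ (O' + 1), |O| = |O'| + 1, FO (N+1) O = 2⁻¹ + 3 * 2⁻¹ FO (N+1) O'; it equals a iff
2a - 1 = 3 FO (N+1) O' in Z/3^(N+1) iff 3 ∣ 2a - 1 and FO N O' = (2a-1)/3 in Z/3^N. -/
def CnrStmt : Prop :=
  ∀ (N M a : ℕ) (S : Set ℕ), 0 < a →
    cnt (M + 1) S (N + 1) ((a : ℕ) : ZMod (3 ^ (N + 1)))
      = cnt M S (N + 1) ((2 * a : ℕ) : ZMod (3 ^ (N + 1)))
        + (if 3 ∣ 2 * a - 1 then
            cnt M {i | i + 1 ∈ S} N (((2 * a - 1) / 3 : ℕ) : ZMod (3 ^ N)) else 0)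

/-- **Row WRB** (uses AVA, WIR.WmsStmt, WIR.WcfStmt). PROOF. AVA (2) with F = W r and WMS. Third part:
wr (N+1) m - wr N m = F m with F z = W (N+1) z - W N (pj N (N+1) z), because
pj N (N+1) (m : ZMod (3^(N+1))) = (m : ZMod (3^N)) (`ZMod.val_natCast`, 3^N divides 3^(N+1)); AVA (2)
with |F| and WCF. -/
def WrbStmt : Prop :=
  (∀ r m : ℕ, 0 ≤ wr r m) ∧ (∀ r : ℕ, Lv r (wr r) ∧ av r (wr r) ≤ 1) ∧
  (∀ A : ℕ, ∃ C : ℝ, 1 ≤ C ∧ ∀ N : ℕ,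
    av (N + 1) (fun m => |wr (N + 1) m - wr N m|) ≤ C / ((N : ℝ) + 1) ^ A)

/-- **Row VRB** (uses AVA, WRB). PROOF. First part: telescoping sum and the triangle inequality. Second
part: WRB with A + 2 and AVA (1): av R (VR r R) = sum_(N ∈ Ico r R) av (N+1) |wr (N+1) - wr N|
≤ sum C/(N+1)^(A+2) ≤ C/(r+1)^A sum 1/(N+1)^2 ≤ 2C/(r+1)^A (sum over N ∈ Ico r R; e.g.
1/(N+1)^2 ≤ 1/N - 1/(N+1) for N ≥ 1, first term ≤ 1). -/
def VrbStmt : Prop :=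
  (∀ r r' R m : ℕ, r ≤ r' → r' ≤ R → |wr r' m - wr r m| ≤ VR r R m) ∧
  (∀ A : ℕ, ∃ C : ℝ, 1 ≤ C ∧ ∀ r R : ℕ, r ≤ R →
    Lv R (VR r R) ∧ av R (VR r R) ≤ C / ((r : ℝ) + 1) ^ A)

/-- **Row ONE** (W r is almost invariant; uses AVA, AVC, LOP, CNR, WRB, WIR.WexStmt). PROOF. r = 0: the
average is ≤ av 1 (Lop (wr 0)) + av 1 (wr 0) ≤ 2 (LOP, WRB; all functions ≥ 0). Let r = N + 1. Put
G m = 3^r/2^(3r+1) cnt (3r+1) (Ici r) r m and, for m > 0 with 3 ∣ 2m - 1, y = (2m-1)/3. CNR with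
M = 3r, S = Ici r, {i | i+1 ∈ S} = Ici N, and W r (2m) = 3^r/2^(3r) cnt (3r) (Ici r) r (2m):
Lop (wr r) m - G m = [3 ∣ 2m-1] (3/2) h y, h y = wr r y - 3^N/2^(3r) cnt (3r) (Ici N) N y. Now
|h y| ≤ |wr r y - wr N y| + 3^N/2^(3r) (cnt (3r) (Ici N) N y - 8 cnt (3N) (Ici N) N y), where the
last bracket is ≥ 0 and has sum over Z/3^N at most 2^(3r) exp(-N/6) (WEX with M = 3N, M' = 3r), so
av r |h| ≤ C'/(N+1)^A + exp(-N/6) (WRB, AVA), and AVC (2) gives average ≤ half of this at level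
r + 1. Also 0 ≤ G m - wr r m = 3^r/2^(3r+1) (cnt (3r+1) (Ici r) r m - 2 cnt (3r) (Ici r) r m) with average
≤ exp(-r/6) (WEX with M = 3r, M' = 3r+1). Sum: ≤ C'/r^A + 2 exp(-(r-1)/6) ≤ C/(r+1)^A. -/
def OneStmt : Prop :=
  ∀ A : ℕ, ∃ C : ℝ, 1 ≤ C ∧ ∀ r : ℕ,
    av (r + 1) (fun m => |Lop (wr r) m - wr r m|) ≤ C / ((r : ℝ) + 1) ^ A

/-- **Row ITR** (uses AVA, LOP, WRB, ONE). PROOF. C from ONE. Induction on s. s = 0: zero. s + 1: Lv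
(r+s+1) by LOP (1). |Lop f m - Lop g m| ≤ Lop |f - g| m pointwise, so
|Lop^[s+1] w - w| ≤ Lop |Lop^[s] w - w| + |Lop w - w|; averages at level r+s+1: the first one is
av (r+s) |Lop^[s] w - w| ≤ s C/(r+1)^A (LOP (1)), the second one is its average at level r + 1
(AVA (1)), ≤ C/(r+1)^A. -/
def ItrStmt : Prop :=
  ∀ A : ℕ, ∃ C : ℝ, 1 ≤ C ∧ ∀ r s : ℕ,
    Lv (r + s) (Lop^[s] (wr r)) ∧
    av (r + s) (fun m => |(Lop^[s] (wr r)) m - wr r m|) ≤ s * C / ((r : ℝ) + 1) ^ A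

/-- **Row TBK** (the block lemma; uses AVA, LVM, LOP, WRB, VRB, ITR, WIR.HoeStmt). PROOF. For m > 0 by LOP
(2) Lop^[s] (wr r') m = Tht s r' m + tail m, tail m = sum over l ∈ range (s+1), l ∉ WS s of
(3^l/2^s) PS s l (wr r') m ≥ 0. So max 0 (wr r m - Tht s r' m)
≤ |wr r m - wr r' m| + |wr r' m - Lop^[s] (wr r') m| + tail m. Lv N: wr r has level r ≤ N, and
PS s l (wr r') level r' + l ≤ N for l ∈ WS s (LVM). Let N' = max N (r'+s); av N = av N' for the left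
side (AVA (1)). At level N' the three averages are: ≤ C/(r+1)^A (VRB with r, r', R = r'), ≤ s C/(r'+1)^A
(ITR) ≤ s C/(r+1)^A, and by LVM, WRB: sum over l ∉ WS s of C(s,l)/2^s. For s > 0, l ≤ s, l ∉ WS s
means u ≤ 2l - s or u ≤ s - 2l with u = s/1000, HOE: ≤ 2 exp(-u²/(2s)) = 2 exp(-s/2000000); s = 0: no
such l. -/
def TbkStmt : Prop :=
  ∀ A : ℕ, ∃ C : ℝ, 1 ≤ C ∧ ∀ r r' s N : ℕ, r ≤ r' → r' ≤ N → (∀ l ∈ WS s, l + r' ≤ N) →
    Lv N (fun m => max 0 (wr r m - Tht s r' m)) ∧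
    av N (fun m => max 0 (wr r m - Tht s r' m))
      ≤ C * (s + 1) / ((r : ℝ) + 1) ^ A + 2 * Real.exp (-((s : ℝ) / 2000000))

end Pool.Agent.WR2
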